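import Pool.Agent.W593.IR.Stm3

set_option autoImplicit false

namespace Pool.Agent.W903.IR

open Pool.Agent.W593.IR

lemma pc0_1 (v : ℝ) (h1 : 1/2 ≤ v) (h2 : v ≤ 1) : 4/7 ≤ (1 : ℝ) * (1 - v) ^ 0 * (v + 1/7 * (1 - v)) := by
  obtain ⟨x, hx⟩ : ∃ x : ℝ, x = v - 1/2 := ⟨_, rfl⟩
  obtain ⟨y, hy⟩ : ∃ y : ℝ, y = 1 - v := ⟨_, rfl⟩
  have hx0 : 0 ≤ x := by linarith
  have hy0 : 0 ≤ y := by linarith
  have hp : 0 ≤ 6/7 * x ^ 1 * y ^ 0 := by positivity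
  have key : (1 : ℝ) * (1 - v) ^ 0 * (v + 1/7 * (1 - v)) - 4/7 = 6/7 * x ^ 1 * y ^ 0 := by rw [hx, hy]; ring
  linarith

lemma pc0_2 (v : ℝ) (h1 : 1/3 ≤ v) (h2 : v ≤ 1/2) : 4/7 ≤ (2 : ℝ) * (1 - v) ^ 1 * (v + 1/7 * (1 - v)) := by
  obtain ⟨x, hx⟩ : ∃ x : ℝ, x = v - 1/3 := ⟨_, rfl⟩
  obtain ⟨y, hy⟩ : ∃ y : ℝ, y = 1/2 - v := ⟨_, rfl⟩
  have hx0 : 0 ≤ x := by linarith
  have hy0 : 0 ≤ y := by linarith
  have hp : 0 ≤ 12/7 * x ^ 1 * y ^ 1 := by positivity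
  have key : (2 : ℝ) * (1 - v) ^ 1 * (v + 1/7 * (1 - v)) - 4/7 = 12/7 * x ^ 1 * y ^ 1 := by rw [hx, hy]; ring
  linarith

lemma pc0_3 (v : ℝ) (h1 : 1/4 ≤ v) (h2 : v ≤ 1/3) : 4/7 ≤ (3 : ℝ) * (1 - v) ^ 2 * (v + 1/7 * (1 - v)) := by
  obtain ⟨x, hx⟩ : ∃ x : ℝ, x = v - 1/4 := ⟨_, rfl⟩
  obtain ⟨y, hy⟩ : ∃ y : ℝ, y = 1/3 - v := ⟨_, rfl⟩
  have hx0 : 0 ≤ x := by linarith
  have hy0 : 0 ≤ y := by linarith
  have hp : 0 ≤ 54 * x ^ 0 * y ^ 3 + 972/7 * x ^ 1 * y ^ 2 + 576/7 * x ^ 2 * y ^ 1 := by positivity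
  have key : (3 : ℝ) * (1 - v) ^ 2 * (v + 1/7 * (1 - v)) - 4/7 = 54 * x ^ 0 * y ^ 3 + 972/7 * x ^ 1 * y ^ 2 + 576/7 * x ^ 2 * y ^ 1 := by rw [hx, hy]; ring
  linarith

lemma pc0_4 (v : ℝ) (h1 : 1/5 ≤ v) (h2 : v ≤ 1/4) : 4/7 ≤ (4 : ℝ) * (1 - v) ^ 3 * (v + 1/7 * (1 - v)) := by
  obtain ⟨x, hx⟩ : ∃ x : ℝ, x = v - 1/5 := ⟨_, rfl⟩
  obtain ⟨y, hy⟩ : ∃ y : ℝ, y = 1/4 - v := ⟨_, rfl⟩
  have hx0 : 0 ≤ x := by linarith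
  have hy0 : 0 ≤ y := by linarith
  have hp : 0 ≤ 80896/7 * x ^ 0 * y ^ 4 + 40960 * x ^ 1 * y ^ 3 + 364800/7 * x ^ 2 * y ^ 2 + 194000/7 * x ^ 3 * y ^ 1 + 5000 * x ^ 4 * y ^ 0 := by positivity
  have key : (4 : ℝ) * (1 - v) ^ 3 * (v + 1/7 * (1 - v)) - 4/7 = 80896/7 * x ^ 0 * y ^ 4 + 40960 * x ^ 1 * y ^ 3 + 364800/7 * x ^ 2 * y ^ 2 + 194000/7 * x ^ 3 * y ^ 1 + 5000 * x ^ 4 * y ^ 0 := by rw [hx, hy]; ring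
  linarith

lemma pc1_1 (v : ℝ) (h1 : 1/2 ≤ v) (h2 : v ≤ 1) : 108/217 ≤ (1 : ℝ) * (1 - v) ^ 0 * (v + 13/217 * (1 - v)) := by
  obtain ⟨x, hx⟩ : ∃ x : ℝ, x = v - 1/2 := ⟨_, rfl⟩
  obtain ⟨y, hy⟩ : ∃ y : ℝ, y = 1 - v := ⟨_, rfl⟩
  have hx0 : 0 ≤ x := by linarith
  have hy0 : 0 ≤ y := by linarith
  have hp : 0 ≤ 2/31 * x ^ 0 * y ^ 1 + 218/217 * x ^ 1 * y ^ 0 := by positivity
  have key : (1 : ℝ) * (1 - v) ^ 0 * (v + 13/217 * (1 - v)) - 108/217 = 2/31 * x ^ 0 * y ^ 1 + 218/217 * x ^ 1 * y ^ 0 := by rw [hx, hy]; ring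
  linarith

lemma pc1_2 (v : ℝ) (h1 : 1/3 ≤ v) (h2 : v ≤ 1/2) : 108/217 ≤ (2 : ℝ) * (1 - v) ^ 1 * (v + 13/217 * (1 - v)) := by
  obtain ⟨x, hx⟩ : ∃ x : ℝ, x = v - 1/3 := ⟨_, rfl⟩
  obtain ⟨y, hy⟩ : ∃ y : ℝ, y = 1/2 - v := ⟨_, rfl⟩
  have hx0 : 0 ≤ x := by linarith
  have hy0 : 0 ≤ y := by linarith
  have hp : 0 ≤ 660/217 * x ^ 1 * y ^ 1 + 36/31 * x ^ 2 * y ^ 0 := by positivity
  have key : (2 : ℝ) * (1 - v) ^ 1 * (v + 13/217 * (1 - v)) - 108/217 = 660/217 * x ^ 1 * y ^ 1 + 36/31 * x ^ 2 * y ^ 0 := by rw [hx, hy]; ring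
  linarith

lemma pc1_3 (v : ℝ) (h1 : 1/4 ≤ v) (h2 : v ≤ 1/3) : 108/217 ≤ (3 : ℝ) * (1 - v) ^ 2 * (v + 13/217 * (1 - v)) := by
  obtain ⟨x, hx⟩ : ∃ x : ℝ, x = v - 1/4 := ⟨_, rfl⟩
  obtain ⟨y, hy⟩ : ∃ y : ℝ, y = 1/3 - v := ⟨_, rfl⟩
  have hx0 : 0 ≤ x := by linarith
  have hy0 : 0 ≤ y := by linarith
  have hp : 0 ≤ 8100/217 * x ^ 1 * y ^ 2 + 7488/217 * x ^ 2 * y ^ 1 := by positivity
  have key : (3 : ℝ) * (1 - v) ^ 2 * (v + 13/217 * (1 - v)) - 108/217 = 8100/217 * x ^ 1 * y ^ 2 + 7488/217 * x ^ 2 * y ^ 1 := by rw [hx, hy]; ring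
  linarith

lemma pc1_4 (v : ℝ) (h1 : 1/5 ≤ v) (h2 : v ≤ 1/4) : 108/217 ≤ (4 : ℝ) * (1 - v) ^ 3 * (v + 13/217 * (1 - v)) := by
  obtain ⟨x, hx⟩ : ∃ x : ℝ, x = v - 1/5 := ⟨_, rfl⟩
  obtain ⟨y, hy⟩ : ∃ y : ℝ, y = 1/4 - v := ⟨_, rfl⟩
  have hx0 : 0 ≤ x := by linarith
  have hy0 : 0 ≤ y := by linarith
  have hp : 0 ≤ 11264/7 * x ^ 0 * y ^ 4 + 204800/31 * x ^ 1 * y ^ 3 + 57600/7 * x ^ 2 * y ^ 2 + 702000/217 * x ^ 3 * y ^ 1 := by positivity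
  have key : (4 : ℝ) * (1 - v) ^ 3 * (v + 13/217 * (1 - v)) - 108/217 = 11264/7 * x ^ 0 * y ^ 4 + 204800/31 * x ^ 1 * y ^ 3 + 57600/7 * x ^ 2 * y ^ 2 + 702000/217 * x ^ 3 * y ^ 1 := by rw [hx, hy]; ring
  linarith

lemma pc2_1 (v : ℝ) (h1 : 1/2 ≤ v) (h2 : v ≤ 1) : 6912/14911 ≤ (1 : ℝ) * (1 - v) ^ 0 * (v + 491/14911 * (1 - v)) := by
  obtain ⟨x, hx⟩ : ∃ x : ℝ, x = v - 1/2 := ⟨_, rfl⟩
  obtain ⟨y, hy⟩ : ∃ y : ℝ, y = 1 - v := ⟨_, rfl⟩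
  have hx0 : 0 ≤ x := by linarith
  have hy0 : 0 ≤ y := by linarith
  have hp : 0 ≤ 1578/14911 * x ^ 0 * y ^ 1 + 15998/14911 * x ^ 1 * y ^ 0 := by positivity
  have key : (1 : ℝ) * (1 - v) ^ 0 * (v + 491/14911 * (1 - v)) - 6912/14911 = 1578/14911 * x ^ 0 * y ^ 1 + 15998/14911 * x ^ 1 * y ^ 0 := by rw [hx, hy]; ring
  linarith

lemma pc2_2 (v : ℝ) (h1 : 1/3 ≤ v) (h2 : v ≤ 1/2) : 6912/14911 ≤ (2 : ℝ) * (1 - v) ^ 1 * (v + 491/14911 * (1 - v)) := by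
  obtain ⟨x, hx⟩ : ∃ x : ℝ, x = v - 1/3 := ⟨_, rfl⟩
  obtain ⟨y, hy⟩ : ∃ y : ℝ, y = 1/2 - v := ⟨_, rfl⟩
  have hx0 : 0 ≤ x := by linarith
  have hy0 : 0 ≤ y := by linarith
  have hp : 0 ≤ 176/481 * x ^ 0 * y ^ 2 + 62700/14911 * x ^ 1 * y ^ 1 + 28404/14911 * x ^ 2 * y ^ 0 := by positivity
  have key : (2 : ℝ) * (1 - v) ^ 1 * (v + 491/14911 * (1 - v)) - 6912/14911 = 176/481 * x ^ 0 * y ^ 2 + 62700/14911 * x ^ 1 * y ^ 1 + 28404/14911 * x ^ 2 * y ^ 0 := by rw [hx, hy]; ring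
  linarith

lemma pc2_3 (v : ℝ) (h1 : 1/4 ≤ v) (h2 : v ≤ 1/3) : 6912/14911 ≤ (3 : ℝ) * (1 - v) ^ 2 * (v + 491/14911 * (1 - v)) := by
  obtain ⟨x, hx⟩ : ∃ x : ℝ, x = v - 1/4 := ⟨_, rfl⟩
  obtain ⟨y, hy⟩ : ∃ y : ℝ, y = 1/3 - v := ⟨_, rfl⟩
  have hx0 : 0 ≤ x := by linarith
  have hy0 : 0 ≤ y := by linarith
  have hp : 0 ≤ 849852/14911 * x ^ 1 * y ^ 2 + 1068480/14911 * x ^ 2 * y ^ 1 + 8448/481 * x ^ 3 * y ^ 0 := by positivity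
  have key : (3 : ℝ) * (1 - v) ^ 2 * (v + 491/14911 * (1 - v)) - 6912/14911 = 849852/14911 * x ^ 1 * y ^ 2 + 1068480/14911 * x ^ 2 * y ^ 1 + 8448/481 * x ^ 3 * y ^ 0 := by rw [hx, hy]; ring
  linarith

lemma pc2_4 (v : ℝ) (h1 : 1/5 ≤ v) (h2 : v ≤ 1/4) : 6912/14911 ≤ (4 : ℝ) * (1 - v) ^ 3 * (v + 491/14911 * (1 - v)) := by
  obtain ⟨x, hx⟩ : ∃ x : ℝ, x = v - 1/5 := ⟨_, rfl⟩
  obtain ⟨y, hy⟩ : ∃ y : ℝ, y = 1/4 - v := ⟨_, rfl⟩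
  have hx0 : 0 ≤ x := by linarith
  have hy0 : 0 ≤ y := by linarith
  have hp : 0 ≤ 28897280/14911 * x ^ 1 * y ^ 3 + 1785600/481 * x ^ 2 * y ^ 2 + 26514000/14911 * x ^ 3 * y ^ 1 := by positivity
  have key : (4 : ℝ) * (1 - v) ^ 3 * (v + 491/14911 * (1 - v)) - 6912/14911 = 28897280/14911 * x ^ 1 * y ^ 3 + 1785600/481 * x ^ 2 * y ^ 2 + 26514000/14911 * x ^ 3 * y ^ 1 := by rw [hx, hy]; ring
  linarith

lemma pc3_2 (v : ℝ) (h1 : 1/3 ≤ v) (h2 : v ≤ 1/2) : 18/17 ≤ (2 : ℝ) * (1 - v) ^ 0 * (v + 5/17 * (1 - v)) := by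
  obtain ⟨x, hx⟩ : ∃ x : ℝ, x = v - 1/3 := ⟨_, rfl⟩
  obtain ⟨y, hy⟩ : ∃ y : ℝ, y = 1/2 - v := ⟨_, rfl⟩
  have hx0 : 0 ≤ x := by linarith
  have hy0 : 0 ≤ y := by linarith
  have hp : 0 ≤ 24/17 * x ^ 1 * y ^ 0 := by positivity
  have key : (2 : ℝ) * (1 - v) ^ 0 * (v + 5/17 * (1 - v)) - 18/17 = 24/17 * x ^ 1 * y ^ 0 := by rw [hx, hy]; ring
  linarith

lemma pc3_3 (v : ℝ) (h1 : 1/4 ≤ v) (h2 : v ≤ 1/3) : 18/17 ≤ (3 : ℝ) * (1 - v) ^ 1 * (v + 5/17 * (1 - v)) := by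
  obtain ⟨x, hx⟩ : ∃ x : ℝ, x = v - 1/4 := ⟨_, rfl⟩
  obtain ⟨y, hy⟩ : ∃ y : ℝ, y = 1/3 - v := ⟨_, rfl⟩
  have hx0 : 0 ≤ x := by linarith
  have hy0 : 0 ≤ y := by linarith
  have hp : 0 ≤ 36/17 * x ^ 1 * y ^ 1 := by positivity
  have key : (3 : ℝ) * (1 - v) ^ 1 * (v + 5/17 * (1 - v)) - 18/17 = 36/17 * x ^ 1 * y ^ 1 := by rw [hx, hy]; ring
  linarith

lemma pc3_4 (v : ℝ) (h1 : 1/5 ≤ v) (h2 : v ≤ 1/4) : 18/17 ≤ (4 : ℝ) * (1 - v) ^ 2 * (v + 5/17 * (1 - v)) := by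
  obtain ⟨x, hx⟩ : ∃ x : ℝ, x = v - 1/5 := ⟨_, rfl⟩
  obtain ⟨y, hy⟩ : ∃ y : ℝ, y = 1/4 - v := ⟨_, rfl⟩
  have hx0 : 0 ≤ x := by linarith
  have hy0 : 0 ≤ y := by linarith
  have hp : 0 ≤ 7552/17 * x ^ 0 * y ^ 3 + 16000/17 * x ^ 1 * y ^ 2 + 8400/17 * x ^ 2 * y ^ 1 := by positivity
  have key : (4 : ℝ) * (1 - v) ^ 2 * (v + 5/17 * (1 - v)) - 18/17 = 7552/17 * x ^ 0 * y ^ 3 + 16000/17 * x ^ 1 * y ^ 2 + 8400/17 * x ^ 2 * y ^ 1 := by rw [hx, hy]; ring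
  linarith

lemma pc4_2 (v : ℝ) (h1 : 1/3 ≤ v) (h2 : v ≤ 1/2) : 576/721 ≤ (2 : ℝ) * (1 - v) ^ 0 * (v + 101/721 * (1 - v)) := by
  obtain ⟨x, hx⟩ : ∃ x : ℝ, x = v - 1/3 := ⟨_, rfl⟩
  obtain ⟨y, hy⟩ : ∃ y : ℝ, y = 1/2 - v := ⟨_, rfl⟩
  have hx0 : 0 ≤ x := by linarith
  have hy0 : 0 ≤ y := by linarith
  have hp : 0 ≤ 236/721 * x ^ 0 * y ^ 1 + 1476/721 * x ^ 1 * y ^ 0 := by positivity
  have key : (2 : ℝ) * (1 - v) ^ 0 * (v + 101/721 * (1 - v)) - 576/721 = 236/721 * x ^ 0 * y ^ 1 + 1476/721 * x ^ 1 * y ^ 0 := by rw [hx, hy]; ring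
  linarith

lemma pc4_3 (v : ℝ) (h1 : 1/4 ≤ v) (h2 : v ≤ 1/3) : 576/721 ≤ (3 : ℝ) * (1 - v) ^ 1 * (v + 101/721 * (1 - v)) := by
  obtain ⟨x, hx⟩ : ∃ x : ℝ, x = v - 1/4 := ⟨_, rfl⟩
  obtain ⟨y, hy⟩ : ∃ y : ℝ, y = 1/3 - v := ⟨_, rfl⟩
  have hx0 : 0 ≤ x := by linarith
  have hy0 : 0 ≤ y := by linarith
  have hp : 0 ≤ 7524/721 * x ^ 1 * y ^ 1 + 5664/721 * x ^ 2 * y ^ 0 := by positivity
  have key : (3 : ℝ) * (1 - v) ^ 1 * (v + 101/721 * (1 - v)) - 576/721 = 7524/721 * x ^ 1 * y ^ 1 + 5664/721 * x ^ 2 * y ^ 0 := by rw [hx, hy]; ring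
  linarith

lemma pc4_4 (v : ℝ) (h1 : 1/5 ≤ v) (h2 : v ≤ 1/4) : 576/721 ≤ (4 : ℝ) * (1 - v) ^ 2 * (v + 101/721 * (1 - v)) := by
  obtain ⟨x, hx⟩ : ∃ x : ℝ, x = v - 1/5 := ⟨_, rfl⟩
  obtain ⟨y, hy⟩ : ∃ y : ℝ, y = 1/4 - v := ⟨_, rfl⟩
  have hx0 : 0 ≤ x := by linarith
  have hy0 : 0 ≤ y := by linarith
  have hp : 0 ≤ 58880/721 * x ^ 1 * y ^ 2 + 56400/721 * x ^ 2 * y ^ 1 := by positivity
  have key : (4 : ℝ) * (1 - v) ^ 2 * (v + 101/721 * (1 - v)) - 576/721 = 58880/721 * x ^ 1 * y ^ 2 + 56400/721 * x ^ 2 * y ^ 1 := by rw [hx, hy]; ring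
  linarith

lemma pc5_3 (v : ℝ) (h1 : 1/4 ≤ v) (h2 : v ≤ 1/3) : 48/31 ≤ (3 : ℝ) * (1 - v) ^ 0 * (v + 11/31 * (1 - v)) := by
  obtain ⟨x, hx⟩ : ∃ x : ℝ, x = v - 1/4 := ⟨_, rfl⟩
  obtain ⟨y, hy⟩ : ∃ y : ℝ, y = 1/3 - v := ⟨_, rfl⟩
  have hx0 : 0 ≤ x := by linarith
  have hy0 : 0 ≤ y := by linarith
  have hp : 0 ≤ 60/31 * x ^ 1 * y ^ 0 := by positivity
  have key : (3 : ℝ) * (1 - v) ^ 0 * (v + 11/31 * (1 - v)) - 48/31 = 60/31 * x ^ 1 * y ^ 0 := by rw [hx, hy]; ring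
  linarith

lemma pc5_4 (v : ℝ) (h1 : 1/5 ≤ v) (h2 : v ≤ 1/4) : 48/31 ≤ (4 : ℝ) * (1 - v) ^ 1 * (v + 11/31 * (1 - v)) := by
  obtain ⟨x, hx⟩ : ∃ x : ℝ, x = v - 1/5 := ⟨_, rfl⟩
  obtain ⟨y, hy⟩ : ∃ y : ℝ, y = 1/4 - v := ⟨_, rfl⟩
  have hx0 : 0 ≤ x := by linarith
  have hy0 : 0 ≤ y := by linarith
  have hp : 0 ≤ 80/31 * x ^ 1 * y ^ 1 := by positivity
  have key : (4 : ℝ) * (1 - v) ^ 1 * (v + 11/31 * (1 - v)) - 48/31 = 80/31 * x ^ 1 * y ^ 1 := by rw [hx, hy]; ring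
  linarith

lemma core (a b : ℝ) (hb : 0 < b) (u H : ℕ → ℝ) (sq : SQ 5 u H) (j : ℕ) (hj : j + 1 ≤ 4)
    (pieces : ∀ m : ℕ, j + 1 ≤ m → m ≤ 4 → ∀ v : ℝ, 1 / ((m : ℝ) + 1) ≤ v → v ≤ 1 / (m : ℝ) →
      a ≤ (m : ℝ) * (1 - v) ^ (m - (j + 1)) * (v + b * (1 - v))) :
    a ≤ u (j + 1) + b * H j := by
  have hH0 : ((j + 1 : ℕ) : ℝ) ≤ H (j + 1) := sq.h0 (j + 1) (by omega)
  have hH1 : H (j + 1) ≤ 5 * u (j + 1) := by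
    have := sq.h1 (j + 1) (by omega)
    simpa using this
  have hu1 : u (j + 1) ≤ 1 := sq.u1 (j + 1) (by omega)
  have hst : H (j + 1) ≤ H j + u (j + 1) := sq.st j (by omega)
  have hj1 : (1 : ℝ) ≤ ((j + 1 : ℕ) : ℝ) := by
    have : 1 ≤ j + 1 := by omega
    exact_mod_cast this
  have hHpos : 0 < H (j + 1) := by linarith
  have hU : 0 < u (j + 1) := by linarith
  obtain ⟨g, hg⟩ : ∃ g : ℝ, g = H (j + 1) / u (j + 1) := ⟨_, rfl⟩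
  have hgU : g * u (j + 1) = H (j + 1) := by rw [hg]; field_simp
  have hg5 : g ≤ 5 := by
    rw [hg, div_le_iff₀ hU]; exact hH1
  have hgj : ((j + 1 : ℕ) : ℝ) ≤ g := by
    rw [hg, le_div_iff₀ hU]
    nlinarith
  have hg1 : 1 ≤ g := by linarith
  have hg0 : 0 < g := by linarith
  obtain ⟨m, hm1, hm2, hm3, hm4⟩ : ∃ m : ℕ, j + 1 ≤ m ∧ m ≤ 4 ∧ (m : ℝ) ≤ g ∧ g ≤ (m : ℝ) + 1 := by
    rcases le_or_gt ⌊g⌋₊ 4 with h | h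
    · refine ⟨⌊g⌋₊, ?_, h, Nat.floor_le hg0.le, (Nat.lt_floor_add_one g).le⟩
      exact Nat.le_floor hgj
    · refine ⟨4, hj, le_refl _, ?_, ?_⟩
      · have h5 : (5 : ℕ) ≤ ⌊g⌋₊ := h
        have := (Nat.le_floor_iff hg0.le).mp h5
        push_cast at this ⊢
        linarith
      · push_cast; linarith
  have hm0 : (0 : ℝ) < m := by
    have : 0 < m := by omega
    exact_mod_cast this
  have hch := sq.ch (j + 1) (by omega) m hm1 g hm3 hg1 hU (le_of_eq hgU)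
  have hv1 : 1 / ((m : ℝ) + 1) ≤ 1 / g := one_div_le_one_div_of_le hg0 hm4
  have hv2 : 1 / g ≤ 1 / (m : ℝ) := one_div_le_one_div_of_le hm0 hm3
  have hp := pieces m hm1 hm2 (1 / g) hv1 hv2
  have hv3 : 1 / g ≤ 1 := by rw [div_le_one hg0]; exact hg1
  have hv0 : 0 < 1 / g := by positivity
  have hw : 0 ≤ 1 / g + b * (1 - 1 / g) := by
    have : 0 ≤ b * (1 - 1 / g) := mul_nonneg hb.le (by linarith)
    linarith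
  have h1 : a ≤ H (j + 1) * (1 / g + b * (1 - 1 / g)) :=
    hp.trans (mul_le_mul_of_nonneg_right hch hw)
  have h2 : H (j + 1) * (1 / g) = u (j + 1) := by
    rw [← hgU]; field_simp
  have h3 : H (j + 1) * (1 / g + b * (1 - 1 / g)) = u (j + 1) + b * (H (j + 1) - u (j + 1)) := by
    have : H (j + 1) * (1 / g + b * (1 - 1 / g)) =
      H (j + 1) * (1 / g) + b * (H (j + 1) - H (j + 1) * (1 / g)) := by ring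
    rw [this, h2]
  rw [h3] at h1
  have h4 : b * (H (j + 1) - u (j + 1)) ≤ b * H j :=
    mul_le_mul_of_nonneg_left (by linarith) hb.le
  linarith

theorem chj5 : S_CHJ5 := by
  intro u H sq
  refine ⟨?_, ?_, ?_, ?_, ?_, ?_⟩
  · refine core (4 / 7) (1 / 7) (by norm_num) u H sq 0 (by norm_num) ?_
    intro m hm1 hm2 v h1 h2
    have : m = 1 ∨ m = 2 ∨ m = 3 ∨ m = 4 := by omega
    rcases this with rfl | rfl | rfl | rfl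
    · norm_num at h1 h2 ⊢
      simpa using pc0_1 v (by linarith) (by linarith)
    · norm_num at h1 h2 ⊢
      simpa using pc0_2 v (by linarith) (by linarith)
    · norm_num at h1 h2 ⊢
      simpa using pc0_3 v (by linarith) (by linarith)
    · norm_num at h1 h2 ⊢
      simpa using pc0_4 v (by linarith) (by linarith)
  · refine core (108 / 217) (13 / 217) (by norm_num) u H sq 0 (by norm_num) ?_
    intro m hm1 hm2 v h1 h2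
    have : m = 1 ∨ m = 2 ∨ m = 3 ∨ m = 4 := by omega
    rcases this with rfl | rfl | rfl | rfl
    · norm_num at h1 h2 ⊢
      simpa using pc1_1 v (by linarith) (by linarith)
    · norm_num at h1 h2 ⊢
      simpa using pc1_2 v (by linarith) (by linarith)
    · norm_num at h1 h2 ⊢
      simpa using pc1_3 v (by linarith) (by linarith)
    · norm_num at h1 h2 ⊢
      simpa using pc1_4 v (by linarith) (by linarith)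
  · refine core (6912 / 14911) (491 / 14911) (by norm_num) u H sq 0 (by norm_num) ?_
    intro m hm1 hm2 v h1 h2
    have : m = 1 ∨ m = 2 ∨ m = 3 ∨ m = 4 := by omega
    rcases this with rfl | rfl | rfl | rfl
    · norm_num at h1 h2 ⊢
      simpa using pc2_1 v (by linarith) (by linarith)
    · norm_num at h1 h2 ⊢
      simpa using pc2_2 v (by linarith) (by linarith)
    · norm_num at h1 h2 ⊢
      simpa using pc2_3 v (by linarith) (by linarith)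
    · norm_num at h1 h2 ⊢
      simpa using pc2_4 v (by linarith) (by linarith)
  · refine core (18 / 17) (5 / 17) (by norm_num) u H sq 1 (by norm_num) ?_
    intro m hm1 hm2 v h1 h2
    have : m = 2 ∨ m = 3 ∨ m = 4 := by omega
    rcases this with rfl | rfl | rfl
    · norm_num at h1 h2 ⊢
      simpa using pc3_2 v (by linarith) (by linarith)
    · norm_num at h1 h2 ⊢
      simpa using pc3_3 v (by linarith) (by linarith)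
    · norm_num at h1 h2 ⊢
      simpa using pc3_4 v (by linarith) (by linarith)
  · refine core (576 / 721) (101 / 721) (by norm_num) u H sq 1 (by norm_num) ?_
    intro m hm1 hm2 v h1 h2
    have : m = 2 ∨ m = 3 ∨ m = 4 := by omega
    rcases this with rfl | rfl | rfl
    · norm_num at h1 h2 ⊢
      simpa using pc4_2 v (by linarith) (by linarith)
    · norm_num at h1 h2 ⊢
      simpa using pc4_3 v (by linarith) (by linarith)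
    · norm_num at h1 h2 ⊢
      simpa using pc4_4 v (by linarith) (by linarith)
  · refine core (48 / 31) (11 / 31) (by norm_num) u H sq 2 (by norm_num) ?_
    intro m hm1 hm2 v h1 h2
    have : m = 3 ∨ m = 4 := by omega
    rcases this with rfl | rfl
    · norm_num at h1 h2 ⊢
      simpa using pc5_3 v (by linarith) (by linarith)
    · norm_num at h1 h2 ⊢
      simpa using pc5_4 v (by linarith) (by linarith)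

end Pool.Agent.W903.IR
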